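import Pool.Agent.Helper19.HO.St

/-! # HO, module TRA: an atom of `c` is an atom with a normal ultrafilter at almost all of its
reflection points -/

namespace Pool.Agent.Helper63.HO.TRA

open Ordinal Cardinal ZFSet Order Pool.Agent.Helper73.HODC Pool.Agent.Helper73.HM
open Pool.Agent.Helper73.HE Pool.Agent.Helper73.HU Pool.Agent.Helper19.HN Pool.Agent.Helper19.HO
open Pool.Agent.Helper29.HM.NM

/-- the relation coded by `x`, restricted to decreasing pairs -/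
def R (x : ZFSet.{0}) (i b : Ordinal.{0}) : Prop :=
  b < i ∧ ZFSet.pair i.toZFSet b.toZFSet ∈ x

theorem pair_rank (i b : Ordinal.{0}) (h : b < i) :
    (ZFSet.pair i.toZFSet b.toZFSet).rank ≤ Order.succ (Order.succ i) := by
  unfold ZFSet.pair
  rw [ZFSet.rank_pair, ZFSet.rank_singleton, ZFSet.rank_pair, rank_toZFSet, rank_toZFSet]
  refine max_le le_rfl (Order.succ_le_succ (max_le le_rfl (Order.succ_le_succ h.le)))

theorem dp_R (i j k : ℕ) : DP (fun v => R (v k) (v i).rank (v j).rank) := by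
  refine (DP.rank_lt j i).and ?_
  refine (DP.ex (Q := fun p v => p ∈ v k ∧ ∃ y, (y = y.rank.toZFSet ∧ y.rank = (v i).rank) ∧
    ∃ z, (z = z.rank.toZFSet ∧ z.rank = (v j).rank) ∧ p = ZFSet.pair y z) ?_).congr fun v => ?_
  · refine (DP.mem 0 (k + 1)).and ?_
    refine DP.ex (Q := fun y v => (y = y.rank.toZFSet ∧ y.rank = (v (i + 1)).rank) ∧
      ∃ z, (z = z.rank.toZFSet ∧ z.rank = (v (j + 1)).rank) ∧ v 0 = ZFSet.pair y z) ?_
    refine ((DP.isOrd 0).and (DP.rank_eq 0 (i + 2))).and ?_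
    refine DP.ex (Q := fun z v => (z = z.rank.toZFSet ∧ z.rank = (v (j + 2)).rank) ∧
      v 1 = ZFSet.pair (v 0) z) ?_
    exact ((DP.isOrd 0).and (DP.rank_eq 0 (j + 3))).and (DP.pair 2 1 0)
  · constructor
    · intro h
      exact ⟨_, h, (v i).rank.toZFSet, ⟨by rw [rank_toZFSet], rank_toZFSet _⟩,
        (v j).rank.toZFSet, ⟨by rw [rank_toZFSet], rank_toZFSet _⟩, rfl⟩
    · rintro ⟨p, hp, y, ⟨hy, hy'⟩, z, ⟨hz, hz'⟩, rfl⟩
      rw [hy, hz, hy', hz'] at hp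
      exact hp

theorem dp_R1 {x : ZFSet.{0}} (hx : HOD x) (i j : ℕ) :
    DP (fun v => R x (v i).rank (v j).rank) :=
  dp_subst (Q := fun x v => R x (v i).rank (v j).rank) hx (dp_R (i + 1) (j + 1) 0)

/-- the statement about one atom and one set at one point -/
def G (A : Set Ordinal.{0}) (x : ZFSet.{0}) (g : Ordinal.{0}) : Prop :=
  (AE g A (fun i => i ∈ st x) ∨ AE g A (fun i => ¬ i ∈ st x)) ∧
  (AE g A (fun i => ¬ ∃ b, R x i b) ∨ ∃ b < g, AE g A (fun i => R x i b))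

theorem key {c : Cardinal.{0}} (hc : c.IsRegular) (hc' : ℵ₀ < c) {A : Set Ordinal.{0}}
    (hA : Atm c.ord A) {x : ZFSet.{0}} (hx : HOD x) :
    ∃ D, Club D c.ord ∧ ∀ g ∈ D, g < c.ord → G A x g := by
  have hτ : ℵ₀ < c.ord.cof := reg_cof hc hc'
  have h1 : ∃ D, Club D c.ord ∧ ∀ g ∈ D, g < c.ord →
      (AE g A (fun i => i ∈ st x) ∨ AE g A (fun i => ¬ i ∈ st x)) := by
    have hdp : DP (fun v => (v 0).rank ∈ st x) :=
      dp_subst (Q := fun x v => (v 0).rank ∈ st x) hx (DP.st 1 0)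
    rcases hA.dec (Q := fun i => i ∈ st x) hdp with h | h
    · obtain ⟨D, hD, h⟩ := AE_refl hτ h
      exact ⟨D, hD, fun g hg hgc => Or.inl (h g hg hgc)⟩
    · obtain ⟨D, hD, h⟩ := AE_refl hτ h
      exact ⟨D, hD, fun g hg hgc => Or.inr (h g hg hgc)⟩
  have h2 : ∃ D, Club D c.ord ∧ ∀ g ∈ D, g < c.ord →
      (AE g A (fun i => ¬ ∃ b, R x i b) ∨ ∃ b < g, AE g A (fun i => R x i b)) := by
    have hdp : DP (fun v => ∃ b, R x (v 0).rank b) :=
      DP.exO (Q := fun b v => R x (v 0).rank b) (dp_R1 hx 1 0)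
    rcases hA.dec (Q := fun i => ∃ b, R x i b) hdp with h | h
    · have hS : Stat {a | a ∈ A ∧ ∃ b, R x a b} c.ord := h.stat hτ hA.stat
      have hch : ∀ a, ∃ b, (∃ b, R x a b) → R x a b := by
        intro a
        by_cases ha : ∃ b, R x a b
        · obtain ⟨b, hb⟩ := ha
          exact ⟨b, fun _ => hb⟩
        · exact ⟨0, fun h' => absurd h' ha⟩
      choose r hr using hch
      obtain ⟨b, hb, hSb⟩ := fodor hc hc' hS (r := r) fun a ha _ _ => (hr a ha.2).1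
      have hdb : DP (fun v => R x (v 0).rank b) :=
        dp_subst_at (Q := fun b v => R x (v 0).rank b) (dp_R1 hx 1 0) b
      have h3 : AE c.ord A (fun i => R x i b) := by
        rcases hA.dec (Q := fun i => R x i b) hdb with h3 | h3
        · exact h3
        · obtain ⟨a, ha, -, h4⟩ := stat_AE_exists hτ hSb (fun a ha => ha.1.1) h3
          have h5 := hr a ha.1.2
          rw [ha.2] at h5
          exact absurd h5 h4
      obtain ⟨D, hD, h4⟩ := AE_refl hτ h3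
      exact ⟨D ∩ {a | b < a}, hD.inter hτ (club_Ioi (isSuccLimit_of_cof hτ) hb),
        fun g hg hgc => Or.inr ⟨b, hg.2, h4 g hg.1 hgc⟩⟩
    · obtain ⟨D, hD, h⟩ := AE_refl hτ h
      exact ⟨D, hD, fun g hg hgc => Or.inl (h g hg hgc)⟩
  obtain ⟨D, hD, h1⟩ := h1
  obtain ⟨D', hD', h2⟩ := h2
  exact ⟨D ∩ D', hD.inter hτ hD', fun g hg hgc => ⟨h1 g hg.1 hgc, h2 g hg.2 hgc⟩⟩

/-- the decreasing part of the graph of a function -/
noncomputable def dn (g : Ordinal.{0}) (f : Ordinal.{0} → Ordinal.{0}) : ZFSet.{0} :=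
  ZFSet.sep (fun p => ∃ a b : Ordinal.{0}, p = ZFSet.pair a.toZFSet b.toZFSet ∧ b < a)
    (graph g f)

theorem mem_dn {g : Ordinal.{0}} {f : Ordinal.{0} → Ordinal.{0}} {i b : Ordinal.{0}} :
    ZFSet.pair i.toZFSet b.toZFSet ∈ dn g f ↔ i < g ∧ f i = b ∧ b < i := by
  rw [dn, ZFSet.mem_sep, mem_graph]
  constructor
  · rintro ⟨⟨a, ha, h⟩, a', b', h', hlt⟩
    obtain ⟨h1, h2⟩ := ZFSet.pair_inj.1 h
    obtain ⟨h3, h4⟩ := ZFSet.pair_inj.1 h'
    have e1 := toZFSet_injective h1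
    have e2 := toZFSet_injective h2
    have e3 := toZFSet_injective h3
    have e4 := toZFSet_injective h4
    rw [e1]
    exact ⟨ha, e2.symm, by rw [e4, ← e1, e3]; exact hlt⟩
  · rintro ⟨h1, h2, h3⟩
    exact ⟨⟨i, h1, by rw [h2]⟩, i, b, rfl, h3⟩

theorem HOD_dn {g : Ordinal.{0}} {f : Ordinal.{0} → Ordinal.{0}} (hf : HOD (graph g f)) :
    HOD (dn g f) := by
  refine HOD.intro _ (DP.od ?_) fun y hy => HOD_elem hf ((ZFSet.mem_sep.1 hy).1)
  refine (DP.all (Q := fun z v => z ∈ v 0 ↔ (z ∈ graph g f ∧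
    ∃ a : Ordinal.{0}, ∃ b : Ordinal.{0}, z = ZFSet.pair a.toZFSet b.toZFSet ∧ b < a)) ?_).congr
      fun v => ?_
  · refine (DP.mem 0 1).iff (DP.and ?_ ?_)
    · exact dp_subst (Q := fun x v => v 0 ∈ x) hf (DP.mem 1 0)
    · refine DP.exO (Q := fun a v => ∃ b, v 0 = ZFSet.pair a.toZFSet b.toZFSet ∧ b < a) ?_
      refine DP.exO (Q := fun b v => v 1 = ZFSet.pair (v 0).rank.toZFSet b.toZFSet ∧
        b < (v 0).rank) ?_
      refine DP.and ?_ (DP.rank_lt 0 1)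
      refine (DP.ex (Q := fun y v => (y = y.rank.toZFSet ∧ y.rank = (v 1).rank) ∧
        ∃ z, (z = z.rank.toZFSet ∧ z.rank = (v 0).rank) ∧ v 2 = ZFSet.pair y z) ?_).congr
        fun v => ?_
      · refine ((DP.isOrd 0).and (DP.rank_eq 0 2)).and ?_
        refine DP.ex (Q := fun z v => (z = z.rank.toZFSet ∧ z.rank = (v 1).rank) ∧
          v 3 = ZFSet.pair (v 0) z) ?_
        exact ((DP.isOrd 0).and (DP.rank_eq 0 2)).and (DP.pair 4 1 0)
      · constructor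
        · intro h
          exact ⟨(v 1).rank.toZFSet, ⟨by rw [rank_toZFSet], rank_toZFSet _⟩,
            (v 0).rank.toZFSet, ⟨by rw [rank_toZFSet], rank_toZFSet _⟩, h⟩
        · rintro ⟨y, ⟨hy, hy'⟩, z, ⟨hz, hz'⟩, h⟩
          rw [hy, hz, hy', hz'] at h
          exact h
  · constructor
    · intro h z
      rw [h, dn, ZFSet.mem_sep]
    · intro h
      ext z
      rw [h z, dn, ZFSet.mem_sep]

theorem rank_dn {g : Ordinal.{0}} (hg : IsSuccLimit g) (f : Ordinal.{0} → Ordinal.{0}) :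
    (dn g f).rank ≤ g := by
  rw [ZFSet.rank_le_iff]
  intro z hz
  obtain ⟨hz1, a, b, rfl, hlt⟩ := ZFSet.mem_sep.1 hz
  obtain ⟨a', ha', h⟩ := (mem_graph _ _ _).1 hz1
  have e1 := toZFSet_injective (ZFSet.pair_inj.1 h).1
  rw [← e1] at ha'
  exact (pair_rank a b hlt).trans_lt (hg.succ_lt (hg.succ_lt ha'))

theorem atom_at {A : Set Ordinal.{0}} {m : Ordinal.{0} → ZFSet.{0}} {g : Ordinal.{0}}
    (hSt : Stat A g)
    (hm : ∀ x ∈ hodV g, ∃ k < g, cut (m k) g = x) (hG : ∀ k < g, G A (m k) g) :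
    Atom g A := by
  refine ⟨hSt, fun B hB hBs hspl => ?_⟩
  have hBm : B ∈ hodPow g := mem_hodPow.2 ⟨hBs, hB⟩
  have hBr : B.rank ≤ g := by
    have h1 := rank_mono hBs
    rwa [rank_toZFSet] at h1
  obtain ⟨k, hk, hkB⟩ := hm B ⟨HOD_of_mem hBm, hBr⟩
  have hst : ∀ a < g, a ∈ st B ↔ a ∈ st (m k) := by
    intro a ha
    rw [← hkB, st_cut]
    exact ⟨fun h => h.1, fun h => ⟨h, ha⟩⟩
  rcases (hG k hk).1 with h | h
  · refine (AE_iff.1 h) (hspl.2.mono fun a ha hag => ⟨ha.1, fun h' => ha.2 ?_⟩)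
    exact (hst a hag).2 h'
  · refine (AE_iff.1 h) (hspl.1.mono fun a ha hag => ⟨ha.1, fun h' => h' ?_⟩)
    exact (hst a hag).1 ha.2

theorem normal_at {A : Set Ordinal.{0}} (hA : DPs A) {m : Ordinal.{0} → ZFSet.{0}}
    {g : Ordinal.{0}} (hcof : ℵ₀ < g.cof) (hat : Atom g A)
    (hm : ∀ x ∈ hodV g, ∃ k < g, cut (m k) g = x) (hG : ∀ k < g, G A (m k) g) :
    HODNormal g (UA g A) := by
  have h2 : StUD := ud_of Inp.hp
  have hlim := isSuccLimit_of_cof hcof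
  refine ⟨hod_UA h2 hA _, fun X hX => (mem_UA.1 hX).1, ?_, ?_, ?_, ?_, ?_⟩
  · -- up
    intro X hX Y hY hXY
    rw [mem_UA] at hX ⊢
    exact ⟨hY, fun h => hX.2 (h.mono fun a ha _ => ⟨ha.1, fun h' => ha.2 (st_mono hXY h')⟩)⟩
  · -- inter
    intro X hX Y hY
    rw [mem_UA] at hX hY ⊢
    have hXY := inter_mem hX.1 hY.1
    refine ⟨hXY, fun h => ?_⟩
    have hs := (mem_hodPow.1 hXY).1
    have hs1 := (mem_hodPow.1 hX.1).1
    have hs2 := (mem_hodPow.1 hY.1).1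
    rcases stat_or hcof h (A := st X) with h3 | h3
    · refine hY.2 (h3.mono fun a ha _ => ⟨ha.1.1, fun h4 => ha.1.2 ?_⟩)
      rw [mem_st_iff hs, ZFSet.mem_inter]
      exact ⟨(mem_st_iff hs1).1 ha.2, (mem_st_iff hs2).1 h4⟩
    · exact hX.2 (h3.mono fun a ha _ => ⟨ha.1.1, ha.2⟩)
  · -- ultra
    intro X hX
    obtain ⟨hd, hd'⟩ := diff_mem hX
    obtain ⟨hX1, hX2⟩ := mem_hodPow.1 hX
    rw [mem_UA, mem_UA]
    constructor
    · rintro ⟨-, h3⟩ ⟨-, h4⟩
      rcases stat_or hcof hat.1 (A := st X) with h5 | h5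
      · exact h4 (h5.mono fun a ha hac => ⟨ha.1, fun h6 => (hd' a hac).1 h6 ha.2⟩)
      · exact h3 h5
    · intro h3
      refine ⟨hX, fun h4 => ?_⟩
      apply h3
      refine ⟨hd, fun h5 => ?_⟩
      refine hat.2 X hX2 hX1 ⟨?_, h4⟩
      refine h5.mono fun a ha hac => ⟨ha.1, ?_⟩
      by_contra h6
      exact ha.2 ((hd' a hac).2 h6)
  · -- tail
    intro β hβ
    rw [mem_UA]
    refine ⟨ordSet_mem ?_ _, fun h => ?_⟩
    · exact (DP.rank_lt_ord 0 β).not.congr fun v => (not_lt (a := (v 0).rank) (b := β)).symm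
    · obtain ⟨a, ha, h3, h4⟩ := h _ (club_Ioi hlim hβ)
      have h5 : β ≤ a := le_of_lt h3
      exact ha.2 (mem_st_ordSet.2 ⟨h4, h5⟩)
  · -- normal
    intro f hf X hX hr
    rw [mem_UA] at hX
    obtain ⟨hX1, hX2⟩ := mem_hodPow.1 hX.1
    have hS : Stat {a | a ∈ A ∧ a ∈ st X} g := by
      rcases stat_or hcof hat.1 (A := st X) with h5 | h5
      · exact h5
      · exact absurd h5 hX.2
    obtain ⟨k, hk, hkx⟩ := hm (dn g f) ⟨HOD_dn hf, rank_dn hlim f⟩
    have hR : ∀ i b, i < g → (R (m k) i b ↔ f i = b ∧ b < i) := by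
      intro i b hi
      have h3 : ∀ h : b < i, (ZFSet.pair i.toZFSet b.toZFSet ∈ m k ↔
          ZFSet.pair i.toZFSet b.toZFSet ∈ dn g f) := by
        intro h
        rw [← hkx, mem_cut]
        exact ⟨fun h' => ⟨h', (pair_rank i b h).trans_lt (hlim.succ_lt (hlim.succ_lt hi))⟩,
          fun h' => h'.1⟩
      constructor
      · rintro ⟨h4, h5⟩
        have h6 := mem_dn.1 ((h3 h4).1 h5)
        exact h6.2
      · rintro ⟨h4, h5⟩
        exact ⟨h5, (h3 h5).2 (mem_dn.2 ⟨hi, h4, h5⟩)⟩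
    rcases (hG k hk).2 with h | ⟨η, hη, h⟩
    · exfalso
      have h0 : (0 : Ordinal.{0}) < g := pos_of_cof hcof
      have hS' := hS.inter_club hcof (club_Ioi hlim h0)
      obtain ⟨a, ha, hag, h3⟩ := stat_AE_exists hcof hS' (fun a ha => ha.1.1) h
      have ha0 : (0 : Ordinal.{0}) < a := ha.2
      exact h3 ⟨f a, (hR a (f a) hag).2 ⟨rfl, hr a ((mem_st_iff hX1).1 ha.1.2) ha0.ne'⟩⟩
    · have hDP : DPs {a | a < g ∧ fn (graph g f) a = η} := by
        change DP (fun v => (v 0).rank < g ∧ fn (graph g f) (v 0).rank = η)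
        refine (DP.rank_lt_ord 0 g).and ?_
        refine dp_subst_HOD (Q := fun x v => fn x (v 0).rank = η) ?_ hf
        refine (DP.exO (Q := fun b v => b = η ∧ fn (v 0) (v 1).rank = b)
          ((DP.rank_eq_ord 0 η).and (DP.fn 1 2 0))).congr fun v => ?_
        constructor
        · intro h'
          exact ⟨η, rfl, h'⟩
        · rintro ⟨b, hb, h'⟩
          rw [hb] at h'
          exact h'
      have hB : ordSet g {a | f a = η} = ordSet g {a | a < g ∧ fn (graph g f) a = η} := by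
        refine ext_st (ordSet_sub _ _) (ordSet_sub _ _) fun a => ?_
        rw [mem_st_ordSet, mem_st_ordSet]
        constructor
        · rintro ⟨h4, h5⟩
          exact ⟨h4, h4, by rw [fn_graph h4]; exact h5⟩
        · rintro ⟨h4, -, h5⟩
          rw [fn_graph h4] at h5
          exact ⟨h4, h5⟩
      have hBm : ordSet g {a | f a = η} ∈ hodPow g := by
        rw [hB]
        exact ordSet_mem hDP _
      refine ⟨η, hη, ?_⟩
      rw [mem_UA]
      refine ⟨hBm, fun h4 => (AE_iff.1 h) (h4.mono fun a ha hag => ⟨ha.1, fun h5 => ha.2 ?_⟩)⟩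
      exact mem_st_ordSet.2 ⟨hag, ((hR a η hag).1 h5).1⟩

theorem tra : StTRA := by
  intro c m C' F hc hc' hm hC' hall hF
  have hτ : ℵ₀ < c.ord.cof := reg_cof hc hc'
  have hlim := isSuccLimit_of_cof hτ
  have h1 : ∀ α k, ∃ D, Club D c.ord ∧ (k < c.ord → Atm c.ord (F α) →
      ∀ g ∈ D, g < c.ord → G (F α) (m k) g) := by
    intro α k
    by_cases h : k < c.ord ∧ Atm c.ord (F α)
    · obtain ⟨D, hD, h3⟩ := key hc hc' h.2 (hm k h.1).1
      exact ⟨D, hD, fun _ _ => h3⟩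
    · exact ⟨Set.univ, club_univ hlim, fun h3 h4 => absurd ⟨h3, h4⟩ h⟩
  choose D hD hD' using h1
  have h2 : Club {g | ∀ α < g, g ∈ {g | ∀ k < g, g ∈ D α k}} c.ord :=
    Club.diag hc hc' (C := fun α => {g | ∀ k < g, g ∈ D α k}) fun α _ =>
      Club.diag hc hc' (C := fun k => D α k) fun k _ => hD α k
  refine ⟨{g | ∀ α < g, g ∈ {g | ∀ k < g, g ∈ D α k}} ∩ C', h2.inter hτ hC', ?_⟩
  rintro g ⟨hg, hg'⟩ hgc hcof α hα hat hst
  have hG : ∀ k < g, G (F α) (m k) g := fun k hk =>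
    hD' α k (hk.trans hgc) hat g (hg α hα k hk) hgc
  have hatom := atom_at hst (hall g hg' hgc) hG
  exact ⟨⟨hcof, hF α, hatom⟩, normal_at (hF α) hcof hatom (hall g hg' hgc) hG⟩

end Pool.Agent.Helper63.HO.TRA
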